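import Mathlib
import Pool.Agent.ILab.Strong
import Pool.Agent.ILab.Univ

/-!
The Implicit Graph Conjecture holds for small classes: every small hereditary graph class has
adjacency labels of `O(log n)` bits, that is, universal graphs of polynomial size.

The classes are presented as in the frozen statements of this problem: `C n` is the set of the
labelled graphs of the class on the vertex set `Fin n`.
-/

set_option autoImplicit false

namespace Pool.Agent.Results.MP_e2b059_co.LogLabels

/-- Let `C` be a hereditary class with at most `n! * c ^ n` labelled graphs on `n` vertices.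
* There are `K` and one decoder `D` (the same for all `n`) such that every graph of the class with
  `n` vertices has pairwise distinct labels of exactly `K * (log2 n + 1)` bits from which `D`
  reads adjacency.
* There is `K` such that for every `n ≥ 2` there is a graph with `n ^ K` vertices which contains
  every graph of the class with `n` vertices as an induced subgraph. -/
theorem result (C : (n : ℕ) → Set (SimpleGraph (Fin n)))
    (hered : ∀ (n m : ℕ) (e : Fin m ↪ Fin n) (G : SimpleGraph (Fin n)),
      G ∈ C n → G.comap ⇑e ∈ C m)
    (small : ∃ c : ℕ, ∀ n : ℕ, (C n).ncard ≤ n.factorial * c ^ n) :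
    (∃ (K : ℕ) (D : List Bool → List Bool → Prop), ∀ (n : ℕ), ∀ G ∈ C n,
      ∃ ℓ : Fin n → List Bool, Function.Injective ℓ ∧
        (∀ v, (ℓ v).length = K * (Nat.log 2 n + 1)) ∧
        ∀ u v, G.Adj u v ↔ D (ℓ u) (ℓ v)) ∧
    (∃ K : ℕ, ∀ n : ℕ, 2 ≤ n → ∃ U : SimpleGraph (Fin (n ^ K)),
      ∀ G ∈ C n, Nonempty (G ↪g U)) := by
  obtain ⟨K, h⟩ := Pool.Agent.ILab.log_labels C hered small
  exact ⟨⟨K, Pool.Agent.ILab.DecAll, h⟩, ⟨2 * K, fun n hn =>
    Pool.Agent.ILab.universal_of_labels C K Pool.Agent.ILab.DecAll h n hn⟩⟩

end Pool.Agent.Results.MP_e2b059_co.LogLabels
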